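import Pool.Agent.J6H60.FV.SF

/-!
# [AQ] the weighted Bessel inequality for `A`
-/

set_option autoImplicit false

open MeasureTheory

namespace Pool.Agent.J6H60.FV.AQ

open Pool.Agent.W716.FV Pool.Agent.J6H60.FV

variable {n : ℕ} {R : ℝ} {u : E n → ℝ}

/-- `∑ l_i² ⟨x,b_i⟩²` -/
noncomputable def QQ (b : OrthonormalBasis (Fin n) ℝ (E n)) (l : Fin n → ℝ) (x : E n) : ℝ :=
  ∑ i, l i ^ 2 * (inner ℝ x (b i) : ℝ) ^ 2

theorem QQ_nonneg (b : OrthonormalBasis (Fin n) ℝ (E n)) (l : Fin n → ℝ) (x : E n) :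
    0 ≤ QQ b l x := Finset.sum_nonneg fun i _ => by positivity

theorem young {p X Q k T : ℝ} (hp : 0 < p) (hX : 0 ≤ X) (hQ : 0 ≤ Q) (hT : T ^ 2 ≤ Q * X) :
    2 * k * T ≤ p * X + k ^ 2 * Q / p := by
  have h0 : 0 ≤ p * X + k ^ 2 * Q / p := by positivity
  have h1 : (2 * k * T) ^ 2 ≤ (p * X + k ^ 2 * Q / p) ^ 2 := by
    have e : (p * X + k ^ 2 * Q / p) ^ 2 - 4 * k ^ 2 * (Q * X) = (p * X - k ^ 2 * Q / p) ^ 2 := by
      field_simp
      ring
    have h2 := sq_nonneg (p * X - k ^ 2 * Q / p)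
    have h3 : 4 * k ^ 2 * T ^ 2 ≤ 4 * k ^ 2 * (Q * X) :=
      mul_le_mul_of_nonneg_left hT (by positivity)
    nlinarith
  exact (le_abs_self _).trans (abs_le_of_sq_le_sq h1 h0)

theorem cs_basis (b : OrthonormalBasis (Fin n) ℝ (E n)) (l : Fin n → ℝ) (x y : E n) :
    (∑ i, l i * ((inner ℝ y (b i) : ℝ) * (inner ℝ x (b i) : ℝ))) ^ 2 ≤ QQ b l x * ‖y‖ ^ 2 := by
  have h1 : ‖y‖ ^ 2 = ∑ i, (inner ℝ y (b i) : ℝ) ^ 2 := by
    rw [← real_inner_self_eq_norm_sq, ← b.sum_inner_mul_inner y y]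
    refine Finset.sum_congr rfl fun i _ => ?_
    rw [real_inner_comm y (b i)]
    ring
  rw [h1]
  have h2 := Finset.sum_mul_sq_le_sq_mul_sq Finset.univ
    (fun i => l i * (inner ℝ x (b i) : ℝ)) (fun i => (inner ℝ y (b i) : ℝ))
  have e1 : ∑ i, l i * ((inner ℝ y (b i) : ℝ) * (inner ℝ x (b i) : ℝ)) =
      ∑ i, l i * (inner ℝ x (b i) : ℝ) * (inner ℝ y (b i) : ℝ) :=
    Finset.sum_congr rfl fun i _ => by ring
  have e2 : QQ b l x = ∑ i, (l i * (inner ℝ x (b i) : ℝ)) ^ 2 :=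
    Finset.sum_congr rfl fun i _ => by ring
  rw [e1, e2]
  exact h2

theorem inner_cont (v : E n) : Continuous (fun x : E n => (inner ℝ x v : ℝ)) := by fun_prop

theorem int_sq1 (hGM : GaussMoments) (v : E n) :
    Integrable (fun x : E n => (inner ℝ x v : ℝ) ^ 2) (gam n) := by
  obtain ⟨-, hgi, -⟩ := hGM n
  refine ((hgi 2).const_mul (‖v‖ ^ 2)).mono' ((inner_cont v).pow 2).aestronglyMeasurable
    (Filter.Eventually.of_forall fun x => ?_)
  rw [Real.norm_eq_abs, abs_of_nonneg (sq_nonneg _), ← sq_abs]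
  have := pow_le_pow_left₀ (abs_nonneg _) (abs_real_inner_le_norm x v) 2
  calc _ ≤ _ := this
    _ = _ := by ring

theorem int_s_sq (hGM : GaussMoments) (hSF : SFacts) (hR : 0 ≤ R) (hu : Good R u) (η v : E n) :
    Integrable (fun x : E n => sg R u η x * (inner ℝ x v : ℝ) ^ 2) (gam n) := by
  obtain ⟨-, hgi, -⟩ := hGM n
  obtain ⟨hc, ⟨C, hC0, hC⟩, -⟩ := hSF n R u hR hu η
  refine (((hgi 2).add (hgi 3)).const_mul (C * ‖v‖ ^ 2)).mono'
    (hc.mul ((inner_cont v).pow 2)).aestronglyMeasurable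
    (Filter.Eventually.of_forall fun x => ?_)
  rw [Real.norm_eq_abs, abs_mul, abs_of_nonneg (sq_nonneg (inner ℝ x v : ℝ)),
    ← sq_abs (inner ℝ x v : ℝ)]
  have h1 := pow_le_pow_left₀ (abs_nonneg _) (abs_real_inner_le_norm x v) 2
  have h2 := mul_le_mul (hC x) h1 (by positivity) (by positivity)
  refine h2.trans (le_of_eq ?_)
  simp only [Pi.add_apply]
  ring

theorem int_s (hGM : GaussMoments) (hSF : SFacts) (hR : 0 ≤ R) (hu : Good R u) (η : E n) :
    Integrable (sg R u η) (gam n) := by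
  obtain ⟨hp, hgi, -⟩ := hGM n
  obtain ⟨hc, ⟨C, hC0, hC⟩, -⟩ := hSF n R u hR hu η
  have h1 := hgi 1
  simp only [pow_one] at h1
  refine (((integrable_const (1 : ℝ)).add h1).const_mul C).mono' hc.aestronglyMeasurable
    (Filter.Eventually.of_forall fun x => ?_)
  rw [Real.norm_eq_abs]
  exact hC x

/-- `∫ s ⟨x,v⟩² = S - ⟨A v, v⟩` for a unit vector -/
theorem int_s_sq_eq (hGM : GaussMoments) (hSF : SFacts) (hR : 0 ≤ R) (hu : Good R u) (η v : E n)
    (hv : ‖v‖ = 1) : ∫ x, sg R u η x * (inner ℝ x v : ℝ) ^ 2 ∂(gam n) =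
      SS R u η - inner ℝ (AA u η v) v := by
  obtain ⟨hc, -, -, -, h5, h6⟩ := hSF n R u hR hu η
  rw [← h6 v, ← h5, ← integral_sub (int_s hGM hSF hR hu η)]
  · refine integral_congr_ae (Filter.Eventually.of_forall fun x => ?_)
    simp only
    rw [hv]
    ring
  · have := (int_s hGM hSF hR hu η).sub (int_s_sq hGM hSF hR hu η v)
    refine this.congr (Filter.Eventually.of_forall fun x => ?_)
    simp only [Pi.sub_apply]
    rw [hv]
    ring

theorem a_le (hGM : GaussMoments) (hSF : SFacts) (hR : 0 ≤ R) (hu : Good R u) (η v : E n)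
    (hv : ‖v‖ = 1) : (inner ℝ (AA u η v) v : ℝ) ≤ SS R u η := by
  obtain ⟨hc, -, h3, -, h5, h6⟩ := hSF n R u hR hu η
  have h := int_s_sq_eq hGM hSF hR hu η v hv
  have h0 : 0 ≤ ∫ x, sg R u η x * (inner ℝ x v : ℝ) ^ 2 ∂(gam n) := by
    refine integral_nonneg_of_ae ?_
    filter_upwards [h3] with x hx
    exact mul_nonneg hx (sq_nonneg _)
  linarith

/-- the weight -/
noncomputable def om (β S : ℝ) (t : ℝ) : ℝ := 1 - β * S + β * max t 0

theorem om_lower {β S t : ℝ} (hβ : 0 ≤ β) : 1 - β * S ≤ om β S t := by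
  unfold om
  have : 0 ≤ β * max t 0 := mul_nonneg hβ (le_max_right _ _)
  linarith

theorem main (hKM : KappaMoments) (hGM : GaussMoments) (hPM : PMoments) (hGF : GoodFacts)
    (hXI : XIdent) (hSF : SFacts) : AQuad := by
  intro n R u hR hu η β hβ hβS b l
  have hb1 : ∀ i, ‖b i‖ = 1 := fun i => b.norm_eq_one i
  refine ⟨fun i => a_le hGM hSF hR hu η (b i) (hb1 i), ?_⟩
  have := hKM.1
  have := (hGM n).1
  obtain ⟨hpP, hPint, -, -, -, hk0, -⟩ := hPM n
  obtain ⟨hgr, -, hmeas, -, -, -⟩ := hGF n R u hR hu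
  obtain ⟨hX1, hX2, -⟩ := hXI n R u hR hu η
  obtain ⟨hc, ⟨C, hC0, hC⟩, hs0, hs8, hsS, -⟩ := hSF n R u hR hu η
  set S := SS R u η with hS
  have hc0 : 0 < 1 - β * S := by linarith
  have hxi : Measurable (fun w : E n × ℝ => xi η w) := by
    change Measurable (fun w : E n × ℝ => w.1 + w.2 • η)
    fun_prop
  -- the weight as a function of the point
  set W : E n → ℝ := fun x => om β S (sg R u η x) with hW
  have hWc : Continuous W := by
    have : Continuous (fun t : ℝ => om β S t) := by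
      unfold om
      fun_prop
    exact this.comp hc
  have hWl : ∀ x, 1 - β * S ≤ W x := fun x => om_lower hβ
  have hW0 : ∀ x, 0 < W x := fun x => lt_of_lt_of_le hc0 (hWl x)
  -- left side
  have hl1 : ∀ i, Integrable (fun w : E n × ℝ =>
      w.2 * inner ℝ (gr u (xi η w) - η) (b i) * inner ℝ w.1 (b i)) (P n) ∧
      ∫ w, w.2 * (inner ℝ (gr u (xi η w) - η) (b i) : ℝ) * inner ℝ w.1 (b i) ∂(P n) =
        inner ℝ (AA u η (b i)) (b i) := by
    intro i
    have h1 := Pool.Agent.W125.FV.int_Gg hPM hGF hR hu η (b i) (b i) 1 (by norm_num)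
    simp only [pow_one] at h1
    have h2 : ∫ w, w.2 * ((inner ℝ η (b i) : ℝ) * inner ℝ w.1 (b i)) ∂(P n) = 0 :=
      hk0 (fun x => (inner ℝ η (b i) : ℝ) * inner ℝ x (b i))
    have hi2 : Integrable (fun w : E n × ℝ => w.2 * ((inner ℝ η (b i) : ℝ) * inner ℝ w.1 (b i)))
        (P n) := by
      refine Pool.Agent.W125.FV.integ hPM ?_ 1 1 (by norm_num)
        (|(inner ℝ η (b i) : ℝ)| * ‖b i‖) fun w => ?_
      · refine Continuous.aestronglyMeasurable ?_
        fun_prop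
      · have h3 : |(inner ℝ w.1 (b i) : ℝ)| ≤ ‖w.1‖ * ‖b i‖ := abs_real_inner_le_norm _ _
        rw [Real.norm_eq_abs, abs_mul, abs_mul, pow_one, pow_one]
        calc |w.2| * (|(inner ℝ η (b i) : ℝ)| * |(inner ℝ w.1 (b i) : ℝ)|)
            ≤ |w.2| * (|(inner ℝ η (b i) : ℝ)| * (‖w.1‖ * ‖b i‖)) := by gcongr
          _ = |(inner ℝ η (b i) : ℝ)| * ‖b i‖ * (|w.2| * ‖w.1‖) := by ring
    have e : ∀ w : E n × ℝ, w.2 * (inner ℝ (gr u (xi η w) - η) (b i) : ℝ) *
        inner ℝ w.1 (b i) = w.2 * inner ℝ (gr u (xi η w)) (b i) * inner ℝ w.1 (b i) -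
          w.2 * ((inner ℝ η (b i) : ℝ) * inner ℝ w.1 (b i)) := by
      intro w
      rw [inner_sub_left]
      ring
    refine ⟨(h1.sub hi2).congr (Filter.Eventually.of_forall fun w => (e w).symm), ?_⟩
    simp only [e]
    rw [integral_sub h1 hi2, h2, sub_zero, Pool.Agent.W125.FV.AA_inner hPM hGF hR hu η]
  have hl2 : Integrable (fun w : E n × ℝ => 2 * w.2 *
      ∑ i, l i * ((inner ℝ (gr u (xi η w) - η) (b i) : ℝ) * inner ℝ w.1 (b i))) (P n) ∧
      ∫ w, 2 * w.2 * ∑ i, l i * ((inner ℝ (gr u (xi η w) - η) (b i) : ℝ) * inner ℝ w.1 (b i))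
        ∂(P n) = ∑ i, 2 * l i * (inner ℝ (AA u η (b i)) (b i) : ℝ) := by
    have e : ∀ w : E n × ℝ, 2 * w.2 *
        ∑ i, l i * ((inner ℝ (gr u (xi η w) - η) (b i) : ℝ) * inner ℝ w.1 (b i)) =
        ∑ i, 2 * l i * (w.2 * (inner ℝ (gr u (xi η w) - η) (b i) : ℝ) *
          inner ℝ w.1 (b i)) := by
      intro w
      rw [Finset.mul_sum]
      exact Finset.sum_congr rfl fun i _ => by ring
    have hi : ∀ i ∈ Finset.univ, Integrable (fun w : E n × ℝ =>
        2 * l i * (w.2 * (inner ℝ (gr u (xi η w) - η) (b i) : ℝ) * inner ℝ w.1 (b i))) (P n) :=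
      fun i _ => ((hl1 i).1.const_mul _)
    refine ⟨(integrable_finsetSum _ hi).congr (Filter.Eventually.of_forall fun w => (e w).symm),
      ?_⟩
    simp only [e]
    rw [integral_finsetSum _ hi]
    exact Finset.sum_congr rfl fun i _ => by rw [integral_const_mul, (hl1 i).2]
  -- first term on the right
  have hr1 : Integrable (fun w : E n × ℝ => (6 * W w.1)⁻¹ * ((1 + w.2 ^ 2) * XX R u η w))
      (P n) := by
    refine hX2.bdd_mul (c := (6 * (1 - β * S))⁻¹) ?_ ?_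
    · refine Measurable.aestronglyMeasurable ?_
      exact ((hWc.measurable.comp measurable_fst).const_mul 6).inv
    · refine Filter.Eventually.of_forall fun w => ?_
      rw [Real.norm_eq_abs, abs_of_pos (by have := hW0 w.1; positivity)]
      exact inv_anti₀ (by positivity) (by linarith [hWl w.1])
  have hr1v : ∫ w, (6 * W w.1)⁻¹ * ((1 + w.2 ^ 2) * XX R u η w) ∂(P n) ≤ 4 / 3 * S := by
    have h1 := hr1
    unfold P at h1 ⊢
    rw [integral_prod _ h1]
    have h2 : ∫ x, ∫ κ : ℝ, (6 * W x)⁻¹ * ((1 + κ ^ 2) * XX R u η (x, κ)) ∂nu ∂(gam n) ≤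
        ∫ x, 4 / 3 * (S + (1 - β * S) * (sg R u η x - S)) ∂(gam n) := by
      refine integral_mono_ae h1.integral_prod_left ?_ ?_
      · exact ((integrable_const _).add
          (((int_s hGM hSF hR hu η).sub (integrable_const _)).const_mul _)).const_mul _
      · filter_upwards [hs8, hs0] with x hx8 hx0
        show ∫ κ : ℝ, (6 * W x)⁻¹ * ((1 + κ ^ 2) * XX R u η (x, κ)) ∂nu ≤ _
        rw [integral_const_mul, hx8, inv_mul_le_iff₀ (by have := hW0 x; positivity)]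
        have hWx : W x = 1 - β * S + β * sg R u η x := by
          simp only [hW, om, max_eq_left hx0]
        rw [hWx]
        have h3 : 0 ≤ β * (1 - β * S) * (sg R u η x - S) ^ 2 := by positivity
        nlinarith
    refine h2.trans (le_of_eq ?_)
    have i1 : Integrable (fun x => (1 - β * S) * (sg R u η x - S)) (gam n) :=
      ((int_s hGM hSF hR hu η).sub (integrable_const _)).const_mul _
    rw [integral_const_mul, integral_add (integrable_const _) i1, integral_const_mul,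
      integral_sub (int_s hGM hSF hR hu η) (integrable_const _), hsS]
    simp [hS]
  -- second term on the right
  have hQc : Continuous (fun x : E n => QQ b l x) := by
    unfold QQ
    fun_prop
  have hterm : ∀ i, Integrable (fun x : E n => W x * (inner ℝ x (b i) : ℝ) ^ 2) (gam n) ∧
      ∫ x, W x * (inner ℝ x (b i) : ℝ) ^ 2 ∂(gam n) =
        1 - β * (inner ℝ (AA u η (b i)) (b i) : ℝ) := by
    intro i
    have j1 := (int_sq1 hGM (b i)).const_mul (1 - β * S)
    have j2 := (int_s_sq hGM hSF hR hu η (b i)).const_mul β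
    have e : (fun x : E n => W x * (inner ℝ x (b i) : ℝ) ^ 2) =ᵐ[gam n] fun x =>
        (1 - β * S) * (inner ℝ x (b i) : ℝ) ^ 2 +
          β * (sg R u η x * (inner ℝ x (b i) : ℝ) ^ 2) := by
      filter_upwards [hs0] with x hx0
      simp only [hW, om, max_eq_left hx0]
      ring
    refine ⟨(j1.add j2).congr e.symm, ?_⟩
    rw [integral_congr_ae e, integral_add j1 j2, integral_const_mul, integral_const_mul,
      int_s_sq_eq hGM hSF hR hu η (b i) (hb1 i)]
    have h4 := (hGM n).2.2.2.1 (b i) (b i)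
    have h5 : ∀ x : E n, (inner ℝ x (b i) : ℝ) * inner ℝ x (b i) = (inner ℝ x (b i) : ℝ) ^ 2 :=
      fun x => by ring
    simp only [h5] at h4
    rw [h4, real_inner_self_eq_norm_sq, hb1 i]
    ring
  have hWQ : Integrable (fun x : E n => W x * QQ b l x) (gam n) ∧
      ∫ x, W x * QQ b l x ∂(gam n) =
        ∑ i, l i ^ 2 * (1 - β * (inner ℝ (AA u η (b i)) (b i) : ℝ)) := by
    have e : ∀ x : E n, W x * QQ b l x = ∑ i, l i ^ 2 * (W x * (inner ℝ x (b i) : ℝ) ^ 2) := by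
      intro x
      unfold QQ
      rw [Finset.mul_sum]
      exact Finset.sum_congr rfl fun i _ => by ring
    have hi : ∀ i ∈ Finset.univ, Integrable (fun x : E n =>
        l i ^ 2 * (W x * (inner ℝ x (b i) : ℝ) ^ 2)) (gam n) := fun i _ =>
      ((hterm i).1.const_mul _)
    refine ⟨(integrable_finsetSum _ hi).congr (Filter.Eventually.of_forall fun w => (e w).symm),
      ?_⟩
    simp only [e]
    rw [integral_finsetSum _ hi]
    exact Finset.sum_congr rfl fun i _ => by rw [integral_const_mul, (hterm i).2]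
  have hk6 : ∫ κ : ℝ, κ ^ 2 / (1 + κ ^ 2) ∂nu = 1 / 6 := hKM.2.2.2.2.2
  have hk6i : Integrable (fun k : ℝ => k ^ 2 / (1 + k ^ 2)) nu := by
    by_contra hni
    rw [integral_undef hni] at hk6
    norm_num at hk6
  have hr2 : Integrable (fun w : E n × ℝ => (W w.1 * QQ b l w.1) *
      (w.2 ^ 2 / (1 + w.2 ^ 2))) (P n) := by
    unfold P
    exact hWQ.1.mul_prod hk6i
  have hr2v : ∫ w, (W w.1 * QQ b l w.1) * (w.2 ^ 2 / (1 + w.2 ^ 2)) ∂(P n) =
      (∑ i, l i ^ 2 * (1 - β * (inner ℝ (AA u η (b i)) (b i) : ℝ))) * (1 / 6) := by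
    unfold P
    rw [integral_prod_mul (fun x : E n => W x * QQ b l x) (fun k : ℝ => k ^ 2 / (1 + k ^ 2)),
      hWQ.2, hk6]
  -- the pointwise inequality
  have hpt : ∀ w : E n × ℝ, 2 * w.2 *
      ∑ i, l i * ((inner ℝ (gr u (xi η w) - η) (b i) : ℝ) * inner ℝ w.1 (b i)) ≤
      (6 * W w.1)⁻¹ * ((1 + w.2 ^ 2) * XX R u η w) +
        6 * ((W w.1 * QQ b l w.1) * (w.2 ^ 2 / (1 + w.2 ^ 2))) := by
    intro w
    have h1 := cs_basis b l w.1 (gr u (xi η w) - η)
    have h2 := hX1 w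
    have h3 : (∑ i, l i * ((inner ℝ (gr u (xi η w) - η) (b i) : ℝ) *
        inner ℝ w.1 (b i))) ^ 2 ≤ QQ b l w.1 * XX R u η w :=
      h1.trans (mul_le_mul_of_nonneg_left h2 (QQ_nonneg b l w.1))
    have hWx := hW0 w.1
    have hp : 0 < (6 * W w.1)⁻¹ * (1 + w.2 ^ 2) := by positivity
    have h4 := young (k := w.2) hp ((sq_nonneg _).trans h2) (QQ_nonneg b l w.1) h3
    refine h4.trans (le_of_eq ?_)
    have : (1 + w.2 ^ 2 : ℝ) ≠ 0 := by positivity
    field_simp
  have hr2' : Integrable (fun w : E n × ℝ => 6 * ((W w.1 * QQ b l w.1) *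
      (w.2 ^ 2 / (1 + w.2 ^ 2)))) (P n) := hr2.const_mul 6
  have hfin : ∫ w, 2 * w.2 * ∑ i, l i * ((inner ℝ (gr u (xi η w) - η) (b i) : ℝ) *
      inner ℝ w.1 (b i)) ∂(P n) ≤ ∫ w, ((6 * W w.1)⁻¹ * ((1 + w.2 ^ 2) * XX R u η w) +
        6 * ((W w.1 * QQ b l w.1) * (w.2 ^ 2 / (1 + w.2 ^ 2)))) ∂(P n) :=
    integral_mono hl2.1 (hr1.add hr2') hpt
  rw [hl2.2, integral_add hr1 hr2', integral_const_mul, hr2v] at hfin
  rw [Finset.sum_sub_distrib]
  linarith

end Pool.Agent.J6H60.FV.AQ
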