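import Pool.Agent.J6H60.FV.Stm
import Pool.Agent.W925.FV.IN

/-! # [IN2] injectivity of `T` on the set `S ≤ 59/100` -/

set_option autoImplicit false

namespace Pool.Agent.J6H60.FV.IN2

open MeasureTheory Pool.Agent.W716.FV Pool.Agent.J6H60.FV Pool.Agent.W925.FV.IN

/-- integration of the pointwise inequality -/
theorem fin_int {ν : Measure ℝ} [IsProbabilityMeasure ν] (e D Y₁ Y₂ : ℝ → ℝ) (b c : ℝ)
    (i1 : Integrable (fun k : ℝ => (1 + k ^ 2) * e k) ν) (i2 : Integrable e ν)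
    (i3 : Integrable (fun k : ℝ => (1 - e k) / (1 + k ^ 2)) ν) (hD : Integrable D ν)
    (h1 : Integrable Y₁ ν) (h2 : Integrable Y₂ ν)
    (hpt : ∀ k : ℝ, 2 * b * ((1 + k ^ 2) * e k) + c * D k - 24 + 24 * e k -
      72 / b * ((1 - e k) / (1 + k ^ 2)) ≤ Y₁ k + Y₂ k) :
    2 * b * (∫ k, (1 + k ^ 2) * e k ∂ν) + c * (∫ k, D k ∂ν) - 24 + 24 * (∫ k, e k ∂ν) -
      72 / b * (∫ k, (1 - e k) / (1 + k ^ 2) ∂ν) ≤ (∫ k, Y₁ k ∂ν) + ∫ k, Y₂ k ∂ν := by
  have j1 : Integrable (fun k : ℝ => 2 * b * ((1 + k ^ 2) * e k)) ν := i1.const_mul _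
  have j2 : Integrable (fun k : ℝ => c * D k) ν := hD.const_mul _
  have j12 : Integrable (fun k : ℝ => 2 * b * ((1 + k ^ 2) * e k) + c * D k) ν := j1.add j2
  have j3 : Integrable (fun k : ℝ => 2 * b * ((1 + k ^ 2) * e k) + c * D k - 24) ν :=
    j12.sub (integrable_const _)
  have j4 : Integrable (fun k : ℝ => 24 * e k) ν := i2.const_mul _
  have j34 : Integrable (fun k : ℝ => 2 * b * ((1 + k ^ 2) * e k) + c * D k - 24 +
      24 * e k) ν := j3.add j4
  have j5 : Integrable (fun k : ℝ => 72 / b * ((1 - e k) / (1 + k ^ 2))) ν := i3.const_mul _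
  have hmono : ∫ k, (2 * b * ((1 + k ^ 2) * e k) + c * D k - 24 + 24 * e k -
      72 / b * ((1 - e k) / (1 + k ^ 2))) ∂ν ≤ ∫ k, (Y₁ k + Y₂ k) ∂ν :=
    integral_mono (j34.sub j5) (h1.add h2) hpt
  rw [integral_sub j34 j5, integral_add j3 j4, integral_sub j12 (integrable_const _),
    integral_add j1 j2, integral_add h1 h2, integral_const_mul, integral_const_mul,
    integral_const_mul, integral_const_mul] at hmono
  simpa using hmono

theorem main (hKM : KappaMoments) (hPM : PMoments) (hGF : GoodFacts) (hXI : XIdent)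
    (hOV : Overlap2) (hKN : KappaNum2) : Inject2 := by
  intro n R u hR hu η₁ η₂ hS₁ hS₂ hT
  obtain ⟨pnu, -, -, hk2, -, hk6⟩ := hKM
  obtain ⟨pP, hPint, -⟩ := hPM n
  obtain ⟨hV, -, hVm, -, -, -⟩ := hGF n R u hR hu
  haveI := pnu
  haveI := pP
  haveI : SFinite (gam n) := by
    unfold gam
    infer_instance
  set V : E n → E n := gr u with hVdef
  -- integrability on the product
  have hf : ∀ η : E n, Integrable (fun w : E n × ℝ => (1 + w.2 ^ 2) * ‖V (xi η w) - η‖ ^ 2)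
      (P n) := by
    intro η
    obtain ⟨h1, h2, -⟩ := hXI n R u hR hu η
    refine h2.mono' ?_ (Filter.Eventually.of_forall fun w => ?_)
    · refine Measurable.aestronglyMeasurable ?_
      have h3 : Measurable (fun w : E n × ℝ => V (xi η w)) := hVm.comp (meas_xi η)
      exact Measurable.mul (by fun_prop) (((h3.sub_const η).norm).pow_const 2)
    · rw [Real.norm_of_nonneg (by positivity)]
      exact mul_le_mul_of_nonneg_left (h1 w) (by positivity)
  have hJi : ∀ η : E n, Integrable (fun k : ℝ => (1 + k ^ 2) * YY V η k) nu := by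
    intro η
    have h1 := (hf η).integral_prod_right
    refine h1.congr (Filter.Eventually.of_forall fun k => ?_)
    change ∫ x, (1 + k ^ 2) * ‖V (xi η (x, k)) - η‖ ^ 2 ∂(gam n) = _
    rw [integral_const_mul]
    rfl
  have hJ : ∀ η : E n, ∫ k, (1 + k ^ 2) * YY V η k ∂nu ≤ 8 * SS R u η := by
    intro η
    obtain ⟨h1, h2, -, -, h5⟩ := hXI n R u hR hu η
    rw [← h5]
    have h6 : ∫ w, (1 + w.2 ^ 2) * ‖V (xi η w) - η‖ ^ 2 ∂(P n) =
        ∫ k, (1 + k ^ 2) * YY V η k ∂nu := by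
      unfold P
      rw [integral_prod_symm _ (hf η)]
      refine integral_congr_ae (Filter.Eventually.of_forall fun k => ?_)
      change ∫ x, (1 + k ^ 2) * ‖V (xi η (x, k)) - η‖ ^ 2 ∂(gam n) = _
      rw [integral_const_mul]
      rfl
    rw [← h6]
    exact integral_mono (hf η) h2 fun w => mul_le_mul_of_nonneg_left (h1 w) (by positivity)
  have hJ1 : ∫ k, (1 + k ^ 2) * YY V η₁ k ∂nu ≤ 472 / 100 := (hJ η₁).trans (by linarith)
  have hJ2 : ∫ k, (1 + k ^ 2) * YY V η₂ k ∂nu ≤ 472 / 100 := (hJ η₂).trans (by linarith)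
  by_contra hne
  set a : ℝ := ‖η₂ - η₁‖ with ha
  have hapos : 0 < a := by
    rw [ha, norm_pos_iff, sub_ne_zero]
    exact fun h => hne h.symm
  set b : ℝ := a ^ 2 / 4 with hb
  have hb0 : 0 < b := by positivity
  have hVi : ∀ η : E n, Integrable (fun w : E n × ℝ => V (xi η w)) (P n) := by
    intro η
    refine Integrable.of_bound (hVm.comp (meas_xi η)).aestronglyMeasurable R
      (Filter.Eventually.of_forall fun w => hV _)
  have hW : ∀ η : E n, ∫ w, V (xi η w) ∂(P n) = ∫ k, ∫ x, V (x + k • η) ∂(gam n) ∂nu := by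
    intro η
    have h1 := hVi η
    unfold P at h1 ⊢
    rw [integral_prod_symm _ h1]
    rfl
  have hWi : ∀ η : E n, Integrable (fun k : ℝ => ∫ x, V (x + k • η) ∂(gam n)) nu := by
    intro η
    exact (hVi η).integral_prod_right
  have hdiff : η₂ - η₁ = ∫ k, ((∫ x, V (x + k • η₂) ∂(gam n)) - ∫ x, V (x + k • η₁) ∂(gam n))
      ∂nu := by
    rw [integral_sub (hWi η₂) (hWi η₁), ← hW, ← hW, (hXI n R u hR hu η₂).2.2.1,
      (hXI n R u hR hu η₁).2.2.1, hT]
    abel
  -- the inner products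
  set D : ℝ → ℝ := fun k =>
    inner ℝ ((∫ x, V (x + k • η₂) ∂(gam n)) - ∫ x, V (x + k • η₁) ∂(gam n)) (η₂ - η₁) with hD
  have hDv : Integrable (fun k : ℝ =>
      (∫ x, V (x + k • η₂) ∂(gam n)) - ∫ x, V (x + k • η₁) ∂(gam n)) nu := (hWi η₂).sub (hWi η₁)
  have hDi : Integrable D nu := hDv.inner_const (𝕜 := ℝ) (η₂ - η₁)
  have hDint : ∫ k, D k ∂nu = a ^ 2 := by
    have h1 := integral_inner (𝕜 := ℝ) hDv (η₂ - η₁)
    have h2 : ∫ k, D k ∂nu = ∫ k, (inner ℝ (η₂ - η₁)
        ((∫ x, V (x + k • η₂) ∂(gam n)) - ∫ x, V (x + k • η₁) ∂(gam n)) : ℝ) ∂nu := by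
      refine integral_congr_ae (Filter.Eventually.of_forall fun k => ?_)
      exact real_inner_comm _ _
    rw [h2, h1, ← hdiff, real_inner_self_eq_norm_sq]
  -- the exponential
  set e : ℝ → ℝ := fun k => Real.exp (-(b * k ^ 2)) with he
  have he1 : ∀ k, e k ≤ 1 := fun k => by
    simp only [he]
    rw [Real.exp_le_one_iff]
    have : 0 ≤ b * k ^ 2 := by positivity
    linarith
  have he0 : ∀ k, 0 ≤ e k := fun k => (Real.exp_pos _).le
  have hec : Continuous e := by
    simp only [he]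
    fun_prop
  have hk2i : Integrable (fun k : ℝ => k ^ 2) nu := by
    by_contra hni
    rw [integral_undef hni] at hk2
    norm_num at hk2
  have hi12 : Integrable (fun k : ℝ => 1 + k ^ 2) nu := (integrable_const 1).add hk2i
  have i1 : Integrable (fun k : ℝ => (1 + k ^ 2) * e k) nu := by
    refine hi12.mono' ?_ (Filter.Eventually.of_forall fun k => ?_)
    · exact (Continuous.mul (by fun_prop) hec).aestronglyMeasurable
    · rw [Real.norm_eq_abs, abs_of_nonneg (mul_nonneg (by positivity) (he0 k))]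
      have h1 := mul_le_mul_of_nonneg_left (he1 k) (by positivity : (0 : ℝ) ≤ 1 + k ^ 2)
      linarith
  have i2 : Integrable e nu := by
    refine (integrable_const (1 : ℝ)).mono' hec.aestronglyMeasurable
      (Filter.Eventually.of_forall fun k => ?_)
    rw [Real.norm_eq_abs, abs_of_nonneg (he0 k)]
    exact he1 k
  have i3 : Integrable (fun k : ℝ => (1 - e k) / (1 + k ^ 2)) nu := by
    refine (integrable_const (1 : ℝ)).mono' ?_ (Filter.Eventually.of_forall fun k => ?_)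
    · refine Measurable.aestronglyMeasurable ?_
      exact (hec.measurable.const_sub 1).div (by fun_prop)
    · have h1 := he1 k
      have h2 := he0 k
      rw [Real.norm_eq_abs, abs_of_nonneg (div_nonneg (by linarith) (by positivity)),
        div_le_one (by positivity)]
      nlinarith [sq_nonneg k]
  -- the pointwise inequality
  have hpt : ∀ k : ℝ, 2 * b * ((1 + k ^ 2) * e k) + 24 / a ^ 2 * D k - 24 + 24 * e k -
      72 / b * ((1 - e k) / (1 + k ^ 2)) ≤
      (1 + k ^ 2) * YY V η₁ k + (1 + k ^ 2) * YY V η₂ k := by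
    intro k
    have h1 := hOV n V R hVm hV (k • η₁) (k • η₂) η₁ η₂ (24 / (a ^ 2 * (1 + k ^ 2)))
    have h2 : Real.exp (-‖k • η₂ - k • η₁‖ ^ 2 / 4) = e k := by
      rw [← smul_sub, norm_smul, Real.norm_eq_abs, mul_pow, sq_abs]
      simp only [he, hb, ha]
      congr 1
      ring
    rw [h2] at h1
    change a ^ 2 / 2 + 24 / (a ^ 2 * (1 + k ^ 2)) * D k -
      a ^ 2 * (1 + 24 / (a ^ 2 * (1 + k ^ 2))) ^ 2 / 2 * (1 - e k) ≤
      YY V η₁ k + YY V η₂ k at h1
    have hq : (0 : ℝ) < 1 + k ^ 2 := by positivity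
    have h3 := mul_le_mul_of_nonneg_left h1 hq.le
    refine le_trans (le_of_eq ?_) (h3.trans (le_of_eq ?_))
    · rw [hb]
      field_simp
      ring
    · ring
  have hmono := fin_int (ν := nu) e D (fun k : ℝ => (1 + k ^ 2) * YY V η₁ k)
    (fun k : ℝ => (1 + k ^ 2) * YY V η₂ k) b (24 / a ^ 2) i1 i2 i3 hDi (hJi η₁) (hJi η₂) hpt
  have hKNb := hKN b hb0
  have h24 : 24 / a ^ 2 * a ^ 2 = 24 := by field_simp
  rw [hDint, h24] at hmono
  change 944 / 100 < 2 * b * (∫ κ, (1 + κ ^ 2) * e κ ∂nu) + 24 * (∫ κ, e κ ∂nu) -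
      72 / b * ∫ κ, (1 - e κ) / (1 + κ ^ 2) ∂nu at hKNb
  generalize (∫ κ, (1 + κ ^ 2) * e κ ∂nu) = q1 at hmono hKNb
  generalize (∫ κ, e κ ∂nu) = q2 at hmono hKNb
  generalize (∫ κ, (1 - e κ) / (1 + κ ^ 2) ∂nu) = q3 at hmono hKNb
  generalize (∫ k, (1 + k ^ 2) * YY V η₁ k ∂nu) = q4 at hmono hJ1
  generalize (∫ k, (1 + k ^ 2) * YY V η₂ k ∂nu) = q5 at hmono hJ2
  clear_value b
  linarith

end Pool.Agent.J6H60.FV.IN2
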