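import Pool.Agent.J6H60.FV.Stm

/-!
# [PP2] the estimate for a fixed point of the cone
-/

set_option autoImplicit false

open MeasureTheory

namespace Pool.Agent.J6H60.FV.PP2

open Pool.Agent.W716.FV Pool.Agent.J6H60.FV

theorem s_nonneg (hXI : XIdent) {n : ℕ} {R : ℝ} {u : E n → ℝ} (hR : 0 ≤ R) (hu : Good R u)
    (η : E n) : 0 ≤ SS R u η := by
  obtain ⟨h1, -, -, -, h5⟩ := hXI n R u hR hu η
  have h0 : ∀ w : E n × ℝ, 0 ≤ XX R u η w := fun w => (sq_nonneg _).trans (h1 w)
  have h6 : 0 ≤ ∫ w, (1 + w.2 ^ 2) * XX R u η w ∂(P n) :=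
    integral_nonneg fun w => mul_nonneg (by positivity) (h0 w)
  linarith

theorem main (hTD : TDeriv) (hSY : ASymm) (hXI : XIdent) (hAI : AIdent) (hAQ : AQuad)
    (hDL : DetLower2) (hIN : Inject2) : PerP2 := by
  intro n R u hR hu ε hε
  obtain ⟨hT, hS⟩ := hTD n R u hR hu
  have hTc : Continuous (TT u) := continuous_iff_continuousAt.2 fun η => (hT η).continuousAt
  set Z : Set (E n) := {η | ‖TT u η‖ ≤ ε} ∩ {η | SS R u η ≤ 59 / 100} with hZdef
  have hZ : MeasurableSet Z := ((isClosed_le hTc.norm continuous_const).inter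
    (isClosed_le hS continuous_const)).measurableSet
  set c : ℝ := Real.exp (-(R ^ 2) / 2 - 1 / 2) with hc
  have hpt : ∀ η : E n,
      ENNReal.ofReal (wt2 ε η (SS R u η, TT u η) * Real.exp (SS R u η - 1 / 2)) ≤
        Z.indicator (fun η => ENNReal.ofReal c *
          ENNReal.ofReal |(AA u η - ContinuousLinearMap.id ℝ (E n)).det|) η := by
    intro η
    by_cases hη : η ∈ Z
    · rw [Set.indicator_of_mem hη, ← ENNReal.ofReal_mul (Real.exp_pos _).le]
      refine ENNReal.ofReal_le_ofReal ?_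
      obtain ⟨h1, h2⟩ := hη
      have h1' : ‖TT u η‖ ≤ ε := h1
      have h2' : SS R u η ≤ 59 / 100 := h2
      have h0' := s_nonneg hXI hR hu η
      unfold wt2
      rw [if_pos ⟨h1', h2'⟩, ← Real.exp_add]
      obtain ⟨htr, -⟩ := hAI n R u hR hu η
      have hD := hDL n (AA u η) (hSY n R u hR hu η) (SS R u η) h2'
        (fun b l => hAQ n R u hR hu η (17 / 25) (by norm_num) (by linarith) b l)
      have h3 : EX R u η / 2 - 37 / 10 * SS R u η =
          -(LinearMap.trace ℝ (E n) (AA u η : E n →ₗ[ℝ] E n)) - 7 / 10 * SS R u η := by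
        rw [htr]
        ring
      rw [← h3] at hD
      have h5 : -‖η‖ ^ 2 / 2 - inner ℝ (TT u η) η - 47 / 10 * SS R u η + (SS R u η - 1 / 2) =
          (-(R ^ 2) / 2 - 1 / 2) + (EX R u η / 2 - 37 / 10 * SS R u η) := by
        unfold EX
        ring
      simp only [h5]
      rw [Real.exp_add]
      exact mul_le_mul_of_nonneg_left hD (Real.exp_pos _).le
    · rw [Set.indicator_of_notMem hη]
      unfold wt2
      rw [if_neg (fun h => hη ⟨h.1, h.2⟩), zero_mul, ENNReal.ofReal_zero]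
  refine (lintegral_mono hpt).trans ?_
  rw [lintegral_indicator hZ, lintegral_const_mul' _ _ ENNReal.ofReal_ne_top]
  refine mul_le_mul_right ?_ _
  rw [lintegral_abs_det_fderiv_eq_addHaar_image volume hZ
    (fun η _ => (hT η).hasFDerivWithinAt) (fun η₁ h₁ η₂ h₂ h => hIN n R u hR hu η₁ η₂ h₁.2 h₂.2 h)]
  refine measure_mono ?_
  rintro _ ⟨η, hη, rfl⟩
  rw [Metric.mem_closedBall, dist_zero_right]
  exact hη.1

end Pool.Agent.J6H60.FV.PP2
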