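import Pool.Agent.W716.FV.Final
import Pool.Agent.W716.FV.NU
import Pool.Agent.J6H60.FV.AQ
import Pool.Agent.J6H60.FV.IN2
import Pool.Agent.J6H60.FV.PP2
import Pool.Agent.J6H60.FV.Asm2
import Pool.Agent.J6H57.FV.GI2
import Pool.Agent.J6H84.FV.KN2
import Pool.Agent.J6H50.FV.OV2
import Pool.Agent.J6H81.FV.DL2
import Pool.Agent.J6H73.FV.GL2

/-!
# The theorem with constant `9/20`, from all modules
-/

set_option autoImplicit false

namespace Pool.Agent.J6H60.FV

open Pool.Agent.W716.FV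

theorem gI2 : GaussIBP2 := Pool.Agent.J6H57.FV.main
theorem kN2 : KappaNum2 := Pool.Agent.J6H84.FVN.main kM kS
theorem oV2 : Overlap2 := Pool.Agent.J6H50.FV.OV2.main gM
theorem dL2 : DetLower2 := Pool.Agent.J6H81.FV.DL2.main
theorem sF : SFacts := SF.main kM kS gM gI2 pM gF xI
theorem aQ : AQuad := AQ.main kM gM pM gF xI sF
theorem iN2 : Inject2 := IN2.main kM pM gF xI oV2 kN2
theorem pP2 : PerP2 := PP2.main tD sY xI aI aQ dL2 iN2
theorem final2 : Asm2.Main2 :=
  Asm2.main pP2 Pool.Agent.J6H73.FV.gl rC Pool.Agent.J6H73.FV.nf aR uF pF jA nU cV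

end Pool.Agent.J6H60.FV
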