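import Pool.Agent.J6H60.FV.Stm
import Pool.Agent.W125.FV.AI

/-!
# [SF] the function `s(x) = (R² + |η|²)/6 - E_κ[κ u(x + κη)]`
-/

set_option autoImplicit false

open MeasureTheory

namespace Pool.Agent.J6H60.FV.SF

open Pool.Agent.W716.FV Pool.Agent.J6H60.FV

variable {n : ℕ} {R : ℝ} {u : E n → ℝ}

theorem good_cont (hR : 0 ≤ R) (hu : Good R u) : Continuous u := by
  have : LipschitzWith (Real.toNNReal R) u := by
    refine LipschitzWith.of_dist_le_mul fun x y => ?_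
    rw [Real.dist_eq, dist_eq_norm, Real.coe_toNNReal R hR]
    exact hu.lip x y
  exact this.continuous

/-- the inner integral -/
noncomputable def hh (u : E n → ℝ) (η x : E n) : ℝ := ∫ κ, κ * u (x + κ • η) ∂nu

theorem int_k1 (hKM : KappaMoments) : Integrable (fun κ : ℝ => |κ|) nu := by
  by_contra hni
  have h := hKM.2.2.2.2.1
  rw [integral_undef hni] at h
  have : (0 : ℝ) < 4 / (3 * Real.pi) := by positivity
  linarith

theorem int_k2 (hKM : KappaMoments) : Integrable (fun κ : ℝ => κ ^ 2) nu := by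
  by_contra hni
  have h := hKM.2.2.2.1
  rw [integral_undef hni] at h
  norm_num at h

theorem meas_line (η x : E n) : Continuous (fun κ : ℝ => x + κ • η) := by fun_prop

theorem int_hh (hKM : KappaMoments) (hGF : GoodFacts) (hR : 0 ≤ R) (hu : Good R u) (η x : E n) :
    Integrable (fun κ : ℝ => κ * u (x + κ • η)) nu := by
  obtain ⟨-, hub, -, -, -, -⟩ := hGF n R u hR hu
  have hb : Integrable (fun κ : ℝ => R * ‖x‖ * |κ| + R * ‖η‖ * κ ^ 2) nu :=
    ((int_k1 hKM).const_mul _).add ((int_k2 hKM).const_mul _)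
  refine hb.mono' ?_ (Filter.Eventually.of_forall fun κ => ?_)
  · exact (continuous_id.mul ((good_cont hR hu).comp (meas_line η x))).aestronglyMeasurable
  · rw [Real.norm_eq_abs, abs_mul]
    have e1 : ‖x + κ • η‖ ≤ ‖x‖ + |κ| * ‖η‖ := by
      refine (norm_add_le _ _).trans ?_
      rw [norm_smul, Real.norm_eq_abs]
    have e2 : |u (x + κ • η)| ≤ R * (‖x‖ + |κ| * ‖η‖) :=
      (hub _).trans (mul_le_mul_of_nonneg_left e1 hR)
    calc |κ| * |u (x + κ • η)| ≤ |κ| * (R * (‖x‖ + |κ| * ‖η‖)) :=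
          mul_le_mul_of_nonneg_left e2 (abs_nonneg _)
      _ = R * ‖x‖ * |κ| + R * ‖η‖ * |κ| ^ 2 := by ring
      _ = _ := by rw [sq_abs]

theorem hh_lip (hKM : KappaMoments) (hGF : GoodFacts) (hR : 0 ≤ R) (hu : Good R u) (η x y : E n) :
    |hh u η x - hh u η y| ≤ R * (4 / (3 * Real.pi)) * ‖x - y‖ := by
  unfold hh
  rw [← integral_sub (int_hh hKM hGF hR hu η x) (int_hh hKM hGF hR hu η y)]
  have h1 : ∫ κ : ℝ, R * ‖x - y‖ * |κ| ∂nu = R * (4 / (3 * Real.pi)) * ‖x - y‖ := by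
    rw [integral_const_mul, hKM.2.2.2.2.1]
    ring
  rw [← h1, ← Real.norm_eq_abs]
  refine norm_integral_le_of_norm_le ((int_k1 hKM).const_mul _)
    (Filter.Eventually.of_forall fun κ => ?_)
  rw [← mul_sub, norm_mul, Real.norm_eq_abs, Real.norm_eq_abs]
  have h2 := hu.lip (x + κ • η) (y + κ • η)
  rw [add_sub_add_right_eq_sub] at h2
  calc |κ| * |u (x + κ • η) - u (y + κ • η)| ≤ |κ| * (R * ‖x - y‖) :=
        mul_le_mul_of_nonneg_left h2 (abs_nonneg _)
    _ = _ := by ring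

theorem sg_eq (R : ℝ) (u : E n → ℝ) (η x : E n) : sg R u η x = (R ^ 2 + ‖η‖ ^ 2) / 6 - hh u η x := rfl

theorem sg_lip (hKM : KappaMoments) (hGF : GoodFacts) (hR : 0 ≤ R) (hu : Good R u) (η x y : E n) :
    |sg R u η x - sg R u η y| ≤ R * (4 / (3 * Real.pi)) * ‖x - y‖ := by
  have h := hh_lip hKM hGF hR hu η y x
  rw [sg_eq, sg_eq, norm_sub_rev]
  have e : (R ^ 2 + ‖η‖ ^ 2) / 6 - hh u η x - ((R ^ 2 + ‖η‖ ^ 2) / 6 - hh u η y) =
      hh u η y - hh u η x := by ring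
  rw [e]
  exact h

theorem sg_cont (hKM : KappaMoments) (hGF : GoodFacts) (hR : 0 ≤ R) (hu : Good R u) (η : E n) :
    Continuous (sg R u η) := by
  have hpi := Real.pi_pos
  have : LipschitzWith (Real.toNNReal (R * (4 / (3 * Real.pi)))) (sg R u η) := by
    refine LipschitzWith.of_dist_le_mul fun x y => ?_
    rw [Real.dist_eq, dist_eq_norm, Real.coe_toNNReal _ (by positivity)]
    exact sg_lip hKM hGF hR hu η x y
  exact this.continuous

theorem sg_growth (hKM : KappaMoments) (hGF : GoodFacts) (hR : 0 ≤ R) (hu : Good R u) (η : E n) :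
    ∃ C : ℝ, 0 ≤ C ∧ ∀ x, |sg R u η x| ≤ C * (1 + ‖x‖) := by
  have hpi := Real.pi_pos
  set K : ℝ := R * (4 / (3 * Real.pi)) with hK
  have hK0 : 0 ≤ K := by positivity
  refine ⟨|sg R u η 0| + K, by positivity, fun x => ?_⟩
  have h1 := sg_lip hKM hGF hR hu η x 0
  rw [sub_zero] at h1
  have h2 : |sg R u η x| ≤ |sg R u η x - sg R u η 0| + |sg R u η 0| := by
    have := abs_add_le (sg R u η x - sg R u η 0) (sg R u η 0)
    rwa [sub_add_cancel] at this
  have h3 := norm_nonneg x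
  have h4 := abs_nonneg (sg R u η 0)
  nlinarith

theorem xx_nonneg (hXI : XIdent) (hR : 0 ≤ R) (hu : Good R u) (η : E n) (w : E n × ℝ) :
    0 ≤ XX R u η w := (sq_nonneg _).trans ((hXI n R u hR hu η).1 w)

theorem sg_xx (hKM : KappaMoments) (hKS : KappaStein) (hGF : GoodFacts) (hR : 0 ≤ R)
    (hu : Good R u) (η : E n) :
    ∀ᵐ x ∂(gam n), ∫ κ, (1 + κ ^ 2) * XX R u η (x, κ) ∂nu = 8 * sg R u η x := by
  obtain ⟨hgr, hub, hmeas, -, -, hdiff⟩ := hGF n R u hR hu
  haveI := hKM.1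
  haveI : SFinite (gam n) := by
    unfold gam
    infer_instance
  have hd' := hdiff η
  unfold P at hd'
  filter_upwards [Measure.ae_ae_of_ae_prod hd'] with x hx
  have hL : ∀ s t : ℝ, |u (x + s • η) - u (x + t • η)| ≤ R * ‖η‖ * |s - t| := by
    intro s t
    have := hu.lip (x + s • η) (x + t • η)
    rw [add_sub_add_left_eq_sub, ← sub_smul, norm_smul, Real.norm_eq_abs] at this
    calc _ ≤ _ := this
      _ = _ := by ring
  have hs := hKS (fun κ => u (x + κ • η)) (R * ‖η‖) hL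
  have hmg : Measurable fun κ : ℝ => gr u (x + κ • η) := hmeas.comp (meas_line η x).measurable
  have hmi : Measurable fun κ : ℝ => (inner ℝ (gr u (x + κ • η)) η : ℝ) :=
    hmg.inner measurable_const
  have hi12 : Integrable (fun κ : ℝ => 1 + κ ^ 2) nu :=
    (integrable_const 1).add (int_k2 hKM)
  have hXb : ∀ κ : ℝ, |(inner ℝ (gr u (x + κ • η)) η : ℝ)| ≤ R * ‖η‖ := fun κ =>
    (abs_real_inner_le_norm _ _).trans (mul_le_mul_of_nonneg_right (hgr _) (norm_nonneg _))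
  have hii2 : Integrable (fun κ : ℝ => (1 + κ ^ 2) *
      (inner ℝ (gr u (x + κ • η)) η : ℝ)) nu := by
    refine (hi12.mul_const (R * ‖η‖)).mono' ?_ (Filter.Eventually.of_forall ?_)
    · refine (Measurable.mul ?_ hmi).aestronglyMeasurable
      fun_prop
    · intro κ
      rw [Real.norm_eq_abs, abs_mul, abs_of_nonneg (by positivity)]
      exact mul_le_mul_of_nonneg_left (hXb κ) (by positivity)
  have h5 : ∫ κ : ℝ, κ * u (x + κ • η) ∂nu =
      1 / 4 * ∫ κ : ℝ, (1 + κ ^ 2) * (inner ℝ (gr u (x + κ • η)) η : ℝ) ∂nu := by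
    rw [hs]
    congr 1
    refine integral_congr_ae ?_
    filter_upwards [hx] with κ hκ
    have hκ' : DifferentiableAt ℝ u (x + κ • η) := hκ
    have hd : HasDerivAt (fun κ : ℝ => u (x + κ • η)) (fderiv ℝ u (x + κ • η) η) κ := by
      have h1 : HasDerivAt (fun κ : ℝ => x + κ • η) η κ := by
        have := ((hasDerivAt_id κ).smul_const η).const_add x
        simpa using this
      exact hκ'.hasFDerivAt.comp_hasDerivAt κ h1
    show (1 + κ ^ 2) * deriv (fun κ : ℝ => u (x + κ • η)) κ =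
      (1 + κ ^ 2) * (inner ℝ (gr u (x + κ • η)) η : ℝ)
    rw [hd.deriv, Pool.Agent.W125.FV.gr_inner]
  have e : (fun κ : ℝ => (1 + κ ^ 2) * XX R u η (x, κ)) = fun κ : ℝ =>
      (R ^ 2 + ‖η‖ ^ 2) * (1 + κ ^ 2) -
        2 * ((1 + κ ^ 2) * (inner ℝ (gr u (x + κ • η)) η : ℝ)) := by
    funext κ
    unfold XX xi
    ring
  rw [e, integral_sub (hi12.const_mul _) (hii2.const_mul 2), integral_const_mul,
    integral_const_mul, integral_add (integrable_const 1) (int_k2 hKM), hKM.2.2.2.1, sg_eq]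
  unfold hh
  rw [h5]
  simp only [integral_const, probReal_univ, smul_eq_mul]
  ring

theorem int_ku (hPM : PMoments) (hGF : GoodFacts) (hR : 0 ≤ R) (hu : Good R u) (η : E n) :
    Integrable (fun w : E n × ℝ => w.2 * u (xi η w)) (P n) := by
  obtain ⟨-, hub, -, -, -, -⟩ := hGF n R u hR hu
  obtain ⟨-, hint, -⟩ := hPM n
  have hcx : Continuous (xi η) := by
    unfold xi
    fun_prop
  have e2 := hint 1 1 (by norm_num)
  have e3 := hint 2 0 (by norm_num)
  simp only [pow_one, pow_zero, mul_one] at e2 e3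
  refine ((e2.const_mul R).add (e3.const_mul (R * ‖η‖))).mono' ?_ (Filter.Eventually.of_forall ?_)
  · exact (continuous_snd.mul ((good_cont hR hu).comp hcx)).aestronglyMeasurable
  · intro w
    rw [Real.norm_eq_abs, abs_mul]
    have e1 : ‖xi η w‖ ≤ ‖w.1‖ + |w.2| * ‖η‖ := by
      unfold xi
      refine (norm_add_le _ _).trans ?_
      rw [norm_smul, Real.norm_eq_abs]
    have e2 : |u (xi η w)| ≤ R * (‖w.1‖ + |w.2| * ‖η‖) :=
      (hub _).trans (mul_le_mul_of_nonneg_left e1 hR)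
    calc |w.2| * |u (xi η w)| ≤ |w.2| * (R * (‖w.1‖ + |w.2| * ‖η‖)) :=
          mul_le_mul_of_nonneg_left e2 (abs_nonneg _)
      _ = R * (|w.2| * ‖w.1‖) + R * ‖η‖ * |w.2| ^ 2 := by ring

theorem sg_int (hKM : KappaMoments) (hGM : GaussMoments) (hPM : PMoments) (hGF : GoodFacts)
    (hR : 0 ≤ R) (hu : Good R u) (η : E n) :
    ∫ x, sg R u η x ∂(gam n) = SS R u η := by
  haveI := hKM.1
  haveI := (hGM n).1
  have h1 := int_ku hPM hGF hR hu η
  have h2 := h1
  unfold P at h2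
  have h3 : Integrable (fun x : E n => hh u η x) (gam n) := h2.integral_prod_left
  have h4 : ∫ w, w.2 * u (xi η w) ∂(P n) = ∫ x, hh u η x ∂(gam n) := by
    unfold P
    rw [integral_prod _ h2]
    rfl
  have e : (fun x => sg R u η x) = fun x => (R ^ 2 + ‖η‖ ^ 2) / 6 - hh u η x := rfl
  rw [e, integral_sub (integrable_const _) h3]
  unfold SS
  rw [h4]
  simp

theorem int_kuq (hPM : PMoments) (hGF : GoodFacts) (hR : 0 ≤ R) (hu : Good R u) (η v : E n) :
    Integrable (fun w : E n × ℝ => w.2 * u (xi η w) * ((inner ℝ w.1 v : ℝ) ^ 2 - ‖v‖ ^ 2))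
      (P n) := by
  obtain ⟨-, hub, -, -, -, -⟩ := hGF n R u hR hu
  obtain ⟨-, hint, -⟩ := hPM n
  have hcx : Continuous (xi η) := by
    unfold xi
    fun_prop
  have e1 := (hint 1 1 (by norm_num)).const_mul (R * ‖v‖ ^ 2)
  have e2 := (hint 2 0 (by norm_num)).const_mul (R * ‖η‖ * ‖v‖ ^ 2)
  have e3 := (hint 1 3 (by norm_num)).const_mul (R * ‖v‖ ^ 2)
  have e4 := (hint 2 2 (by norm_num)).const_mul (R * ‖η‖ * ‖v‖ ^ 2)
  refine ((e1.add e2).add (e3.add e4)).mono' ?_ (Filter.Eventually.of_forall ?_)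
  · refine Continuous.aestronglyMeasurable ?_
    refine (continuous_snd.mul ((good_cont hR hu).comp hcx)).mul ?_
    fun_prop
  · intro w
    rw [Real.norm_eq_abs, abs_mul, abs_mul]
    have f1 : ‖xi η w‖ ≤ ‖w.1‖ + |w.2| * ‖η‖ := by
      unfold xi
      refine (norm_add_le _ _).trans ?_
      rw [norm_smul, Real.norm_eq_abs]
    have f2 : |u (xi η w)| ≤ R * (‖w.1‖ + |w.2| * ‖η‖) :=
      (hub _).trans (mul_le_mul_of_nonneg_left f1 hR)
    have f3 : |(inner ℝ w.1 v : ℝ) ^ 2 - ‖v‖ ^ 2| ≤ (‖w.1‖ ^ 2 + 1) * ‖v‖ ^ 2 := by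
      have g1 : (inner ℝ w.1 v : ℝ) ^ 2 ≤ (‖w.1‖ * ‖v‖) ^ 2 := by
        rw [← sq_abs]
        exact pow_le_pow_left₀ (abs_nonneg _) (abs_real_inner_le_norm _ _) 2
      rw [abs_le]
      constructor
      · nlinarith [sq_nonneg (inner ℝ w.1 v : ℝ), sq_nonneg (‖w.1‖ * ‖v‖)]
      · nlinarith [sq_nonneg ‖v‖]
    have f4 : |w.2| * |u (xi η w)| ≤ |w.2| * (R * (‖w.1‖ + |w.2| * ‖η‖)) :=
      mul_le_mul_of_nonneg_left f2 (abs_nonneg _)
    have f5 := mul_le_mul f4 f3 (abs_nonneg _) (by positivity)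
    refine f5.trans (le_of_eq ?_)
    simp only [Pi.add_apply]
    ring

theorem sg_quad (hKM : KappaMoments) (hGM : GaussMoments) (hGI2 : GaussIBP2) (hPM : PMoments)
    (hGF : GoodFacts) (hR : 0 ≤ R) (hu : Good R u) (η v : E n) :
    ∫ x, sg R u η x * (‖v‖ ^ 2 - (inner ℝ x v : ℝ) ^ 2) ∂(gam n) = inner ℝ (AA u η v) v := by
  haveI := hKM.1
  haveI := (hGM n).1
  obtain ⟨-, hgi, -, hgc, -⟩ := hGM n
  have h1 := int_kuq hPM hGF hR hu η v
  have h2 := h1
  unfold P at h2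
  have hq : Integrable (fun x : E n => (inner ℝ x v : ℝ) ^ 2 - ‖v‖ ^ 2) (gam n) := by
    have h3 := (hgi 2).const_mul (‖v‖ ^ 2)
    refine Integrable.sub ?_ (integrable_const _)
    refine h3.mono' ?_ (Filter.Eventually.of_forall fun x => ?_)
    · refine Continuous.aestronglyMeasurable ?_
      fun_prop
    · rw [Real.norm_eq_abs, abs_of_nonneg (sq_nonneg _), ← sq_abs]
      have := pow_le_pow_left₀ (abs_nonneg _) (abs_real_inner_le_norm x v) 2
      calc _ ≤ _ := this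
        _ = _ := by ring
  have hq0 : ∫ x : E n, ((inner ℝ x v : ℝ) ^ 2 - ‖v‖ ^ 2) ∂(gam n) = 0 := by
    have h4 := hgc v v
    have h5 : ∀ x : E n, (inner ℝ x v : ℝ) * inner ℝ x v = (inner ℝ x v : ℝ) ^ 2 := fun x => by
      ring
    simp only [h5] at h4
    have hqq : Integrable (fun x : E n => (inner ℝ x v : ℝ) ^ 2) (gam n) := by
      have := hq.add (integrable_const (‖v‖ ^ 2))
      refine this.congr (Filter.Eventually.of_forall fun x => ?_)
      simp
    rw [integral_sub hqq (integrable_const _), h4, real_inner_self_eq_norm_sq]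
    simp
  have e1 : ∀ x : E n, sg R u η x * (‖v‖ ^ 2 - (inner ℝ x v : ℝ) ^ 2) =
      hh u η x * ((inner ℝ x v : ℝ) ^ 2 - ‖v‖ ^ 2) -
        (R ^ 2 + ‖η‖ ^ 2) / 6 * ((inner ℝ x v : ℝ) ^ 2 - ‖v‖ ^ 2) := by
    intro x
    rw [sg_eq]
    ring
  have e2 : ∀ x : E n, hh u η x * ((inner ℝ x v : ℝ) ^ 2 - ‖v‖ ^ 2) =
      ∫ κ : ℝ, κ * u (xi η (x, κ)) * ((inner ℝ x v : ℝ) ^ 2 - ‖v‖ ^ 2) ∂nu := by
    intro x
    rw [integral_mul_const]
    rfl
  have h3 : Integrable (fun x : E n => hh u η x * ((inner ℝ x v : ℝ) ^ 2 - ‖v‖ ^ 2))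
      (gam n) := by
    refine h2.integral_prod_left.congr (Filter.Eventually.of_forall fun x => ?_)
    exact (e2 x).symm
  simp only [e1]
  rw [integral_sub h3 (hq.const_mul _), integral_const_mul, hq0, mul_zero, sub_zero]
  simp only [e2]
  have h4 : ∫ x, ∫ κ : ℝ, κ * u (xi η (x, κ)) * ((inner ℝ x v : ℝ) ^ 2 - ‖v‖ ^ 2) ∂nu ∂(gam n) =
      ∫ κ : ℝ, ∫ x, κ * u (xi η (x, κ)) * ((inner ℝ x v : ℝ) ^ 2 - ‖v‖ ^ 2) ∂(gam n) ∂nu :=
    integral_integral_swap h2
  rw [h4, Pool.Agent.W125.FV.AA_inner hPM hGF hR hu η v v]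
  have h5 := Pool.Agent.W125.FV.int_Gg hPM hGF hR hu η v v 1 (by norm_num)
  simp only [pow_one] at h5
  unfold P at h5 ⊢
  rw [integral_prod_symm _ h5]
  refine integral_congr_ae (Filter.Eventually.of_forall fun κ => ?_)
  simp only
  have h6 := hGI2 n (fun x => u (x + κ • η)) R (fun x y => by
    have := hu.lip (x + κ • η) (y + κ • η)
    rwa [add_sub_add_right_eq_sub] at this) v
  simp only [fderiv_comp_add_right] at h6
  have e3 : ∀ x : E n, κ * u (xi η (x, κ)) * ((inner ℝ x v : ℝ) ^ 2 - ‖v‖ ^ 2) =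
      κ * (u (x + κ • η) * ((inner ℝ x v : ℝ) ^ 2 - ‖v‖ ^ 2)) := by
    intro x
    unfold xi
    ring
  have e4 : ∀ x : E n, κ * (inner ℝ (gr u (xi η (x, κ))) v : ℝ) * (inner ℝ x v : ℝ) =
      κ * (fderiv ℝ u (x + κ • η) v * inner ℝ x v) := by
    intro x
    rw [Pool.Agent.W125.FV.gr_inner]
    unfold xi
    ring
  simp only [e3, e4]
  rw [integral_const_mul, integral_const_mul, h6]

theorem main (hKM : KappaMoments) (hKS : KappaStein) (hGM : GaussMoments) (hGI2 : GaussIBP2)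
    (hPM : PMoments) (hGF : GoodFacts) (hXI : XIdent) : SFacts := by
  intro n R u hR hu η
  refine ⟨sg_cont hKM hGF hR hu η, sg_growth hKM hGF hR hu η, ?_, sg_xx hKM hKS hGF hR hu η,
    sg_int hKM hGM hPM hGF hR hu η, fun v => sg_quad hKM hGM hGI2 hPM hGF hR hu η v⟩
  filter_upwards [sg_xx hKM hKS hGF hR hu η] with x hx
  have h1 : 0 ≤ ∫ κ, (1 + κ ^ 2) * XX R u η (x, κ) ∂nu :=
    integral_nonneg fun κ => mul_nonneg (by positivity) (xx_nonneg hXI hR hu η _)
  linarith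

end Pool.Agent.J6H60.FV.SF
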