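import Pool.Agent.W716.FV.StmA

/-!
# Nine twentieths of the hemisphere: statements of the new modules

Notation of `Pool.Agent.W716.FV.Defs`: `P n` is the law of `(g, κ)`, `g` standard Gaussian in
`E n`, `κ` with density `8/(3π) (1+κ²)^(-3)`; `S = SS R u η`, `A = AA u η`.

New ingredients:
* `s(x) = (R² + |η|²)/6 - E_κ[κ u(x + κη)]` is nonnegative, `S = E s(g)`, and
  `⟨A v, v⟩ = E[s(g) (|v|² - ⟨g,v⟩²)]`, so `A ≤ S`;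
* `∑ a_i² / (1 - β a_i) ≤ (4/3) S` for the diagonal entries in any orthonormal basis;
* `T` is injective on `{S ≤ 59/100}`.
-/

set_option autoImplicit false

open MeasureTheory

namespace Pool.Agent.J6H60.FV

open Pool.Agent.W716.FV

/-- `s(x) = (R² + |η|²)/6 - E_κ[κ u(x + κη)]` -/
noncomputable def sg {n : ℕ} (R : ℝ) (u : E n → ℝ) (η : E n) (x : E n) : ℝ :=
  (R ^ 2 + ‖η‖ ^ 2) / 6 - ∫ κ, κ * u (x + κ • η) ∂nu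

/-- [GI2] second order Gaussian integration by parts for Lipschitz functions -/
def GaussIBP2 : Prop :=
  ∀ (n : ℕ) (F : E n → ℝ) (L : ℝ), (∀ x y, |F x - F y| ≤ L * ‖x - y‖) → ∀ v : E n,
    ∫ x, F x * ((inner ℝ x v : ℝ) ^ 2 - ‖v‖ ^ 2) ∂(gam n) =
      ∫ x, fderiv ℝ F x v * inner ℝ x v ∂(gam n)

/-- [SF] the function `s` -/
def SFacts : Prop :=
  ∀ (n : ℕ) (R : ℝ) (u : E n → ℝ), 0 ≤ R → Good R u → ∀ η : E n,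
    Continuous (sg R u η) ∧ (∃ C : ℝ, 0 ≤ C ∧ ∀ x, |sg R u η x| ≤ C * (1 + ‖x‖)) ∧
    (∀ᵐ x ∂(gam n), 0 ≤ sg R u η x) ∧
    (∀ᵐ x ∂(gam n), ∫ κ, (1 + κ ^ 2) * XX R u η (x, κ) ∂nu = 8 * sg R u η x) ∧
    ∫ x, sg R u η x ∂(gam n) = SS R u η ∧
    ∀ v : E n, ∫ x, sg R u η x * (‖v‖ ^ 2 - (inner ℝ x v : ℝ) ^ 2) ∂(gam n) =
      inner ℝ (AA u η v) v

/-- [AQ] the weighted Bessel inequality for `A` -/
def AQuad : Prop :=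
  ∀ (n : ℕ) (R : ℝ) (u : E n → ℝ), 0 ≤ R → Good R u → ∀ η : E n, ∀ β : ℝ, 0 ≤ β →
    β * SS R u η < 1 → ∀ (b : OrthonormalBasis (Fin n) ℝ (E n)) (l : Fin n → ℝ),
    (∀ i, (inner ℝ (AA u η (b i)) (b i) : ℝ) ≤ SS R u η) ∧
    ∑ i, (2 * l i * (inner ℝ (AA u η (b i)) (b i) : ℝ) -
      l i ^ 2 * (1 - β * (inner ℝ (AA u η (b i)) (b i) : ℝ))) ≤ 4 / 3 * SS R u η

/-- [DL2] lower bound for the determinant -/
def DetLower2 : Prop :=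
  ∀ (n : ℕ) (A : E n →L[ℝ] E n), (∀ v w : E n, (inner ℝ (A v) w : ℝ) = inner ℝ (A w) v) →
    ∀ S : ℝ, S ≤ 59 / 100 →
    (∀ (b : OrthonormalBasis (Fin n) ℝ (E n)) (l : Fin n → ℝ),
      (∀ i, (inner ℝ (A (b i)) (b i) : ℝ) ≤ S) ∧
      ∑ i, (2 * l i * (inner ℝ (A (b i)) (b i) : ℝ) -
        l i ^ 2 * (1 - 17 / 25 * (inner ℝ (A (b i)) (b i) : ℝ))) ≤ 4 / 3 * S) →
    Real.exp (-(LinearMap.trace ℝ (E n) (A : E n →ₗ[ℝ] E n)) - 7 / 10 * S) ≤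
      |(A - ContinuousLinearMap.id ℝ (E n)).det|

/-- [OV2] overlap of two shifted Gaussians, sharp form -/
def Overlap2 : Prop :=
  ∀ (n : ℕ) (V : E n → E n) (K : ℝ), Measurable V → (∀ x, ‖V x‖ ≤ K) →
    ∀ (c₁ c₂ η₁ η₂ : E n) (s : ℝ),
    ‖η₂ - η₁‖ ^ 2 / 2 +
        s * inner ℝ ((∫ x, V (x + c₂) ∂(gam n)) - ∫ x, V (x + c₁) ∂(gam n)) (η₂ - η₁) -
        ‖η₂ - η₁‖ ^ 2 * (1 + s) ^ 2 / 2 * (1 - Real.exp (-‖c₂ - c₁‖ ^ 2 / 4)) ≤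
      (∫ x, ‖V (x + c₁) - η₁‖ ^ 2 ∂(gam n)) + ∫ x, ‖V (x + c₂) - η₂‖ ^ 2 ∂(gam n)

/-- [KN2] numerical inequality -/
def KappaNum2 : Prop :=
  ∀ b : ℝ, 0 < b → 944 / 100 <
    2 * b * (∫ κ, (1 + κ ^ 2) * Real.exp (-(b * κ ^ 2)) ∂nu) +
      24 * (∫ κ, Real.exp (-(b * κ ^ 2)) ∂nu) -
      72 / b * ∫ κ, (1 - Real.exp (-(b * κ ^ 2))) / (1 + κ ^ 2) ∂nu

/-- [IN2] injectivity of `T` on the set `S ≤ 59/100` -/
def Inject2 : Prop :=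
  ∀ (n : ℕ) (R : ℝ) (u : E n → ℝ), 0 ≤ R → Good R u → ∀ η₁ η₂ : E n,
    SS R u η₁ ≤ 59 / 100 → SS R u η₂ ≤ 59 / 100 → TT u η₁ = TT u η₂ → η₁ = η₂

/-- the weight `1[|τ| ≤ ε, s ≤ 59/100] exp(-|η|²/2 - ⟨τ,η⟩ - 47 s/10)` at `z = (s, τ)` -/
noncomputable def wt2 {n : ℕ} (ε : ℝ) (η : E n) (z : ℝ × E n) : ℝ :=
  open Classical in
  if ‖z.2‖ ≤ ε ∧ z.1 ≤ 59 / 100 then
    Real.exp (-‖η‖ ^ 2 / 2 - inner ℝ z.2 η - 47 / 10 * z.1) else 0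

/-- [PP2] the estimate for a fixed point of the cone -/
def PerP2 : Prop :=
  ∀ (n : ℕ) (R : ℝ) (u : E n → ℝ), 0 ≤ R → Good R u → ∀ ε : ℝ, 0 < ε →
    ∫⁻ η : E n, ENNReal.ofReal (wt2 ε η (SS R u η, TT u η) * Real.exp (SS R u η - 1 / 2)) ≤
      ENNReal.ofReal (Real.exp (-(R ^ 2) / 2 - 1 / 2)) *
        volume (Metric.closedBall (0 : E n) ε)

/-- [GL2] lower bound for the integral of the weights over the region above the paraboloid -/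
def GaussLower2 : Prop :=
  ∀ (n : ℕ) (ε : ℝ), 0 < ε → ε ≤ 1 / 2 →
    ENNReal.ofReal (√(2 * Real.pi) ^ n * (10 / 47) *
        (Real.exp (-(47 / 60) * ε ^ 2) - Real.exp (-(2773 / 1000)))) *
      volume (Metric.closedBall (0 : E n) ε) ≤
    ∫⁻ η : E n, ∫⁻ z in {z : ℝ × E n | ‖z.2‖ ^ 2 / 6 < z.1}, ENNReal.ofReal (wt2 ε η z)

/-- [NF2] numerical constant -/
def NumFinal2 : Prop :=
  9 / 40 ≤ √3 * Real.exp (1 / 2) * (10 / 47) *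
    (Real.exp (-(47 / 60) * (1 / 20) ^ 2) - Real.exp (-(2773 / 1000))) / √(2 * Real.pi)

end Pool.Agent.J6H60.FV
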